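import Pool.Agent.R623.LM.G

set_option autoImplicit false

/-!
Generalised Collatz maps of coprime type with `Λ < 1`: the sums of the reciprocals of the levels of
the trees over finite sets of terms of cycling trajectories.
-/

namespace Pool.Agent.Results.MP_39d40e_nt.ReciprocalMassOfLevels

open Finset Filter Topology

/-- The generalised Collatz map `T(x) = (m_i x - r_i) / d` for `x ≡ i mod d`, `0 ≤ i < d`. -/
def T (d : ℕ) (m r : ℕ → ℤ) (x : ℤ) : ℤ := (m (x % d).toNat * x - r (x % d).toNat) / d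

/-- `Λ = ∏ |m_i / d| ^ (1 / d)` (the number `Λ_C` of the only class, if all `m_i` are coprime to `d`) -/
noncomputable def Lam (d : ℕ) (m : ℕ → ℤ) : ℝ := ∏ i ∈ range d, |(m i : ℝ) / d| ^ ((1 : ℝ) / d)

/-- The level number `k` of the tree over `F`: the integers `x` with `T^k x ∈ F` and `T^j x ∉ F` for
`j < k`. -/
def Level (d : ℕ) (m r : ℕ → ℤ) (F : Set ℤ) (k : ℕ) : Set ℤ :=
  {x : ℤ | (T d m r)^[k] x ∈ F ∧ ∀ j < k, (T d m r)^[j] x ∉ F}

/-- The integers with a trajectory that meets `F`. -/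
def Basin (d : ℕ) (m r : ℕ → ℤ) (F : Set ℤ) : Set ℤ := {x : ℤ | ∃ k : ℕ, (T d m r)^[k] x ∈ F}

/-- The integers `x` whose trajectory cycles. -/
def Cycling (d : ℕ) (m r : ℕ → ℤ) : Set ℤ :=
  {x : ℤ | ∃ k p : ℕ, 1 ≤ p ∧ (T d m r)^[k + p] x = (T d m r)^[k] x}

/-- All terms of the cycling trajectories which start in `[-y, y]`. -/
def Terms (d : ℕ) (m r : ℕ → ℤ) (y : ℝ) : Set ℤ :=
  {z : ℤ | ∃ x ∈ Cycling d m r, |(x : ℝ)| ≤ y ∧ ∃ k : ℕ, z = (T d m r)^[k] x}

/-- `S` has natural density `δ` on the side `σ` (`σ = 1`: positive integers, `σ = -1`: negative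
integers): `#{x ∈ S : 1 ≤ σ x ≤ N} / N → δ`. -/
def HasDensity (S : Set ℤ) (σ : ℤ) (δ : ℝ) : Prop :=
  Tendsto (fun N : ℕ => (Set.ncard {x : ℤ | x ∈ S ∧ 1 ≤ σ * x ∧ σ * x ≤ N} : ℝ) / N) atTop (𝓝 δ)

theorem lam_eq {d : ℕ} {m r : ℕ → ℤ} (h : H319R3.GC.Adm d m r) :
    R623.LM.lam d m = Real.log (1 / Lam d m) := by
  have hd2 := h.two_le
  have hd0 : (0 : ℝ) < d := by
    have : 0 < d := by omega
    exact_mod_cast this
  have hpos : ∀ i ∈ range d, 0 < |(m i : ℝ) / d| := by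
    intro i hi
    have h0 := H319R3.DN.t7_ne h (mem_range.1 hi)
    have h1 : (m i : ℝ) ≠ 0 := by exact_mod_cast h0
    exact abs_pos.2 (div_ne_zero h1 hd0.ne')
  unfold R623.LM.lam Lam
  rw [one_div, Real.log_inv, Real.log_prod fun i hi => (Real.rpow_pos_of_pos (hpos i hi) _).ne', neg_div,
    Finset.sum_div]
  congr 1
  refine Finset.sum_congr rfl fun i hi => ?_
  rw [Real.log_rpow (hpos i hi), abs_div, abs_of_pos hd0]
  ring

theorem adm {d : ℕ} (hd : 2 ≤ d) {m r : ℕ → ℤ} (hm : ∀ i < d, IsCoprime (m i) (d : ℤ))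
    (hr : ∀ i < d, r i ≡ i * m i [ZMOD d]) (hL : Lam d m < 1)
    (hne : ∃ i < d, ∃ j < d, |m i| ≠ |m j|) : H319R3.GC.Adm d m r := by
  obtain ⟨i, hi, j, hj, hij⟩ := hne
  have hd0 : (0 : ℝ) < d := by positivity
  have hadm : ∀ i < d, (d : ℤ) ∣ m i * i - r i := by
    intro i hi
    have h1 := (hr i hi).dvd
    rwa [mul_comm (i : ℤ)] at h1
  have hnz : ∀ i ∈ range d, 1 ≤ (m i).natAbs := by
    intro i hi
    rcases Nat.eq_zero_or_pos (m i).natAbs with h0 | h0
    · exfalso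
      have h1 := hm i (mem_range.1 hi)
      rw [Int.natAbs_eq_zero.1 h0] at h1
      have h2 := isCoprime_zero_left.1 h1
      have h3 := Int.isUnit_iff.1 h2
      omega
    · exact h0
  have hpos : ∀ i ∈ range d, 0 < |(m i : ℝ) / d| := by
    intro i hi
    have h1 : (m i : ℝ) ≠ 0 := by
      have h2 := hnz i hi
      have h3 : m i ≠ 0 := Int.natAbs_ne_zero.1 (by omega)
      exact_mod_cast h3
    exact abs_pos.2 (div_ne_zero h1 hd0.ne')
  have hL' : ∏ i ∈ range d, |(m i : ℝ) / d| < 1 := by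
    have h1 : ∏ i ∈ range d, |(m i : ℝ) / d| = Lam d m ^ (d : ℝ) := by
      unfold Lam
      rw [← Real.finsetProd_rpow _ _ fun i hi => (Real.rpow_pos_of_pos (hpos i hi) _).le]
      refine Finset.prod_congr rfl fun i hi => ?_
      rw [← Real.rpow_mul (hpos i hi).le, one_div, inv_mul_cancel₀ hd0.ne', Real.rpow_one]
    rw [h1]
    have h2 : 0 ≤ Lam d m := Finset.prod_nonneg fun i hi => (Real.rpow_pos_of_pos (hpos i hi) _).le
    exact Real.rpow_lt_one h2 hL hd0
  have hc : ∏ i ∈ range d, (m i).natAbs < d ^ d := by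
    have h1 : ∏ i ∈ range d, |(m i : ℝ) / d| = (∏ i ∈ range d, |(m i : ℝ)|) / (d : ℝ) ^ d := by
      simp only [abs_div, abs_of_pos hd0]
      rw [Finset.prod_div_distrib, Finset.prod_const, card_range]
    rw [h1, div_lt_one (by positivity)] at hL'
    have h2 : ((∏ i ∈ range d, (m i).natAbs : ℕ) : ℝ) = ∏ i ∈ range d, |(m i : ℝ)| := by
      push_cast
      refine Finset.prod_congr rfl fun i _ => ?_
      rw [Nat.cast_natAbs]
      push_cast
      rfl
    have h3 : ((∏ i ∈ range d, (m i).natAbs : ℕ) : ℝ) < ((d ^ d : ℕ) : ℝ) := by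
      rw [h2]; push_cast; exact hL'
    exact_mod_cast h3
  have hij' : (m i).natAbs ≠ (m j).natAbs := by
    intro hcon
    apply hij
    rw [Int.abs_eq_natAbs, Int.abs_eq_natAbs, hcon]
  have hbig : 2 ≤ ∏ i ∈ range d, (m i).natAbs := by
    have h1 : 2 ≤ (m i).natAbs ∨ 2 ≤ (m j).natAbs := by
      have h2 := hnz i (mem_range.2 hi)
      have h3 := hnz j (mem_range.2 hj)
      omega
    have h4 : ∀ l < d, (m l).natAbs ≤ ∏ i ∈ range d, (m i).natAbs := by
      intro l hl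
      exact Nat.le_of_dvd (Finset.prod_pos fun i hi => hnz i hi)
        (Finset.dvd_prod_of_mem _ (mem_range.2 hl))
    rcases h1 with h1 | h1
    · exact h1.trans (h4 i hi)
    · exact h1.trans (h4 j hj)
  exact ⟨hd, hm, hadm, hc, hbig⟩

/-- Let `T` be of coprime type (`gcd(m_i, d) = 1`) with `Λ < 1` and not all `|m_i|` equal.
(1) Let `F` be a finite set of integers with `T F ⊆ F`. The levels of the tree over `F` are finite, the
basin of `F` has natural densities `a`, `b` among the positive and the negative integers, and the sum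
of `1 / |x|` over the level number `k` tends to `log (1 / Λ) (a + b)` for `k → ∞`. If all `m_i` are
positive, then the sum over the positive elements tends to `log (1 / Λ) a`, and the sum over the
negative elements to `log (1 / Λ) b`.
(2) The set of the integers with a cycling trajectory has natural densities `p`, `q` among the positive
and the negative integers. For every `B` there is `C` such that for all `y ≥ 2` the set of all terms of
the cycling trajectories that start in `[-y, y]` is finite and mapped into itself by `T`, and the limit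
`M` of the level sums in (1) for this set satisfies
`0 ≤ log (1 / Λ) (p + q) - M ≤ C / (log y) ^ B`. -/
theorem result (d : ℕ) (hd : 2 ≤ d) (m r : ℕ → ℤ) (hm : ∀ i < d, IsCoprime (m i) (d : ℤ))
    (hr : ∀ i < d, r i ≡ i * m i [ZMOD d]) (hL : Lam d m < 1)
    (hne : ∃ i < d, ∃ j < d, |m i| ≠ |m j|) :
    (∀ F : Set ℤ, F.Finite → (∀ x ∈ F, T d m r x ∈ F) →
      (∀ k, (Level d m r F k).Finite) ∧ ∃ a b : ℝ,
        HasDensity (Basin d m r F) 1 a ∧ HasDensity (Basin d m r F) (-1) b ∧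
        Tendsto (fun k : ℕ => ∑' x : {x : ℤ | x ∈ Level d m r F k}, 1 / |((x : ℤ) : ℝ)|) atTop
          (𝓝 (Real.log (1 / Lam d m) * (a + b))) ∧
        ((∀ i < d, 0 < m i) →
          Tendsto (fun k : ℕ => ∑' x : {x : ℤ | x ∈ Level d m r F k ∧ 0 < x}, 1 / |((x : ℤ) : ℝ)|) atTop
            (𝓝 (Real.log (1 / Lam d m) * a)) ∧
          Tendsto (fun k : ℕ => ∑' x : {x : ℤ | x ∈ Level d m r F k ∧ x < 0}, 1 / |((x : ℤ) : ℝ)|) atTop
            (𝓝 (Real.log (1 / Lam d m) * b)))) ∧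
    (∃ p q : ℝ, HasDensity (Cycling d m r) 1 p ∧ HasDensity (Cycling d m r) (-1) q ∧
      ∀ B : ℕ, ∃ C : ℝ, 0 < C ∧ ∀ y : ℝ, 2 ≤ y →
        (Terms d m r y).Finite ∧ (∀ x ∈ Terms d m r y, T d m r x ∈ Terms d m r y) ∧
        ∃ M : ℝ, Tendsto (fun k : ℕ => ∑' x : {x : ℤ | x ∈ Level d m r (Terms d m r y) k},
            1 / |((x : ℤ) : ℝ)|) atTop (𝓝 M) ∧
          0 ≤ Real.log (1 / Lam d m) * (p + q) - M ∧
          Real.log (1 / Lam d m) * (p + q) - M ≤ C / Real.log y ^ B) := by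
  have hA := adm hd hm hr hL hne
  have hlam := lam_eq hA
  obtain ⟨i, hi, j, hj, hij⟩ := hne
  have hij' : (m i).natAbs ≠ (m j).natAbs := by
    intro hcon
    apply hij
    rw [Int.abs_eq_natAbs, Int.abs_eq_natAbs, hcon]
  have o1 : (1 : ℤ) = 1 ∨ (1 : ℤ) = -1 := Or.inl rfl
  have o2 : (-1 : ℤ) = 1 ∨ (-1 : ℤ) = -1 := Or.inr rfl
  rw [← hlam]
  refine ⟨?_, ?_⟩
  · intro F hF hT
    refine ⟨fun k => R623.LM.Lev_finite hA hF k, ?_⟩
    obtain ⟨l, hl, -⟩ := H319R3.DN.density hA hi hj hij' (R623.LM.Bas_inv hT)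
    refine ⟨l 1, l (-1), R623.LM.dens_nat (hl 1 o1), R623.LM.dens_nat (hl (-1) o2),
      R623.LM.two hA hF hT hl, fun hpos => ⟨?_, ?_⟩⟩
    · have h1 := R623.LM.one hA hpos hF hT o1 (hl 1 o1)
      have e : ∀ k : ℕ, {x : ℤ | x ∈ R623.LM.Lev d m r F k ∧ 0 < 1 * x} =
          {x : ℤ | x ∈ Level d m r F k ∧ 0 < x} := by
        intro k
        ext x
        rw [Set.mem_ofPred_eq, Set.mem_ofPred_eq, one_mul]
        rfl
      exact h1.congr fun k => by rw [e k]
    · have h1 := R623.LM.one hA hpos hF hT o2 (hl (-1) o2)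
      have e : ∀ k : ℕ, {x : ℤ | x ∈ R623.LM.Lev d m r F k ∧ 0 < -1 * x} =
          {x : ℤ | x ∈ Level d m r F k ∧ x < 0} := by
        intro k
        ext x
        rw [Set.mem_ofPred_eq, Set.mem_ofPred_eq]
        constructor
        · rintro ⟨h2, h3⟩; exact ⟨h2, by omega⟩
        · rintro ⟨h2, h3⟩; exact ⟨h2, by omega⟩
      exact h1.congr fun k => by rw [e k]
  · obtain ⟨p, hp, -⟩ := H319R3.DN.density hA hi hj hij' (R623.LM.Cyc_inv d m r)
    refine ⟨p 1, p (-1), R623.LM.dens_nat (hp 1 o1), R623.LM.dens_nat (hp (-1) o2), fun B => ?_⟩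
    obtain ⟨C, hC, hcyc⟩ := R623.LM.cycling hA B
    have hl0 := R623.LM.lam_pos hA
    refine ⟨R623.LM.lam d m * (2 * C), by positivity, fun y hy => ?_⟩
    refine ⟨R623.LM.Fy_finite d m r y, R623.LM.Fy_forward d m r y, ?_⟩
    obtain ⟨l, hl, -⟩ := H319R3.DN.density hA hi hj hij' (R623.LM.Bas_inv (R623.LM.Fy_forward d m r y))
    refine ⟨R623.LM.lam d m * (l 1 + l (-1)),
      R623.LM.two hA (R623.LM.Fy_finite d m r y) (R623.LM.Fy_forward d m r y) hl, ?_, ?_⟩
    · have h1 := (hcyc y hy 1 o1 _ _ (hp 1 o1) (hl 1 o1)).1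
      have h2 := (hcyc y hy (-1) o2 _ _ (hp (-1) o2) (hl (-1) o2)).1
      nlinarith
    · have h1 := (hcyc y hy 1 o1 _ _ (hp 1 o1) (hl 1 o1)).2
      have h2 := (hcyc y hy (-1) o2 _ _ (hp (-1) o2) (hl (-1) o2)).2
      have e1 : R623.LM.lam d m * (p 1 + p (-1)) - R623.LM.lam d m * (l 1 + l (-1)) =
          R623.LM.lam d m * ((p 1 - l 1) + (p (-1) - l (-1))) := by ring
      have e2 : R623.LM.lam d m * (2 * C) / Real.log y ^ B =
          R623.LM.lam d m * (C / Real.log y ^ B + C / Real.log y ^ B) := by ring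
      rw [e1, e2]
      exact mul_le_mul_of_nonneg_left (add_le_add h1 h2) hl0.le

end Pool.Agent.Results.MP_39d40e_nt.ReciprocalMassOfLevels
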