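import Pool.Agent.R344.FD.F
import Pool.Agent.Results.MP_39d40e_nt.ReciprocalMassOfLevels

/-!
Leigh's chain on the levels of the trees of all generalised Collatz maps of coprime type with `Λ < 1`.

If all `m_i` are coprime to `d`, then Leigh's chain has the states `B(0, d), …, B(d - 1, d)`, and all its
transition probabilities are `1 / d`. It describes the trajectories of the profinite integers, and of the
integers of long intervals for a number of steps that is bounded (or logarithmic). Here it is shown that it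
describes the integers which reach a finite set after exactly `k` steps, `k → ∞`.
-/

set_option autoImplicit false

namespace Pool.Agent.Results.MP_39d40e_nt.ChainOnLevels

open Filter Topology Finset

/-- The generalised Collatz map `T(x) = (m_i x - r_i) / d` for `x ≡ i mod d`, `0 ≤ i < d`. -/
def T (d : ℕ) (m r : ℕ → ℤ) (x : ℤ) : ℤ := (m (x % d).toNat * x - r (x % d).toNat) / d

/-- `Λ = ∏ |m_i / d| ^ (1 / d)`, the number `Λ_C` of the only class, if all `m_i` are coprime to `d`. -/
noncomputable def Lam (d : ℕ) (m : ℕ → ℤ) : ℝ := ∏ i ∈ range d, |(m i : ℝ) / d| ^ ((1 : ℝ) / d)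

/-- The level number `k` of the tree over `F`: the integers `x` with `T^k x ∈ F` and `T^j x ∉ F` for
`j < k`. -/
def Level (d : ℕ) (m r : ℕ → ℤ) (F : Set ℤ) (k : ℕ) : Set ℤ :=
  {x : ℤ | (T d m r)^[k] x ∈ F ∧ ∀ j < k, (T d m r)^[j] x ∉ F}

/-- The part of the level number `k` with the states `B(w 0, d), …, B(w (a - 1), d)` at the first `a` times and
in the residue class of `c` modulo `P`. -/
def Part (d : ℕ) (m r : ℕ → ℤ) (F : Set ℤ) (k a : ℕ) (w : ℕ → ℕ) (P : ℕ) (c : ℤ) : Set ℤ :=
  {x : ℤ | x ∈ Level d m r F k ∧ (∀ i < a, (T d m r)^[i] x ≡ w i [ZMOD d]) ∧ x ≡ c [ZMOD P]}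

/-- The sum of `1 / |x|` over the `x` in `A`. -/
noncomputable def mass (A : Set ℤ) : ℝ := ∑' x : A, 1 / |((x : ℤ) : ℝ)|

/-- Let `T` be of coprime type (`gcd(m_i, d) = 1`) with `Λ < 1` and not all `|m_i|` equal, and let `F` be a
finite set of integers with `T F ⊆ F`. All levels over `F` are finite, and for every
sequence `w` of states, every number `a` of steps, and every class `c` modulo a divisor `P` of a power of
`∏ m_i`, the mass of the part of the level `k` with the first `a` states `w` and in the class of `c` differs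
from `1 / (d ^ a P)` times the mass of the level by a quantity which tends to `0` for `k → ∞`. -/
theorem result (d : ℕ) (hd : 2 ≤ d) (m r : ℕ → ℤ) (hm : ∀ i < d, IsCoprime (m i) (d : ℤ))
    (hr : ∀ i < d, r i ≡ i * m i [ZMOD d]) (hL : Lam d m < 1)
    (hne : ∃ i < d, ∃ j < d, |m i| ≠ |m j|) (F : Set ℤ) (hF : F.Finite) (hT : ∀ x ∈ F, T d m r x ∈ F) :
    (∀ k, (Level d m r F k).Finite) ∧
    ∀ (a j P : ℕ) (w : ℕ → ℕ) (c : ℤ), (∀ i, w i < d) → P ∣ (∏ i ∈ range d, (m i).natAbs) ^ j →
      Tendsto (fun k : ℕ => mass (Part d m r F k a w P c) - mass (Level d m r F k) / (d ^ a * P)) atTop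
        (𝓝 0) := by
  obtain ⟨h1, _⟩ := Pool.Agent.Results.MP_39d40e_nt.ReciprocalMassOfLevels.result d hd m r hm hr hL hne
  obtain ⟨hfin, α, β, _, _, hμ, _⟩ := h1 F hF hT
  have hA := Pool.Agent.Results.MP_39d40e_nt.ReciprocalMassOfLevels.adm hd hm hr hL hne
  refine ⟨hfin, fun a j P w c hw hP => ?_⟩
  have hμ' : Tendsto (fun k : ℕ => mass (Level d m r F k)) atTop
      (𝓝 (Real.log (1 / Pool.Agent.Results.MP_39d40e_nt.ReciprocalMassOfLevels.Lam d m) * (α + β))) := hμ
  have h2 := Pool.Agent.R344.FD.chain_levels hA hF hT hμ' a w hw (j := j) (P := P) hP c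
  have h3 := h2.sub (hμ'.div_const ((d : ℝ) ^ a * P))
  rw [sub_self] at h3
  refine h3.congr fun k => ?_
  congr 1
  show Pool.Agent.R344.FD.ms _ = Pool.Agent.R344.FD.ms _
  congr 1
  ext x
  have e1 : ∀ i : ℕ, ((T d m r)^[i] x ≡ w i [ZMOD d]) ↔ (Pool.Agent.H319R3.GC.Tm d m r)^[i] x % d = w i := by
    intro i
    have h5 : ((w i : ℕ) : ℤ) % (d : ℤ) = w i :=
      Int.emod_eq_of_lt (Int.natCast_nonneg _) (by exact_mod_cast hw i)
    constructor
    · intro h
      have h6 : (T d m r)^[i] x % d = (w i : ℤ) % d := h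
      rw [h5] at h6
      exact h6
    · intro h
      show (T d m r)^[i] x % d = (w i : ℤ) % d
      rw [h5]
      exact h
  have e2 : (x ≡ c [ZMOD P]) ↔ (P : ℤ) ∣ x - c := by
    rw [Int.modEq_comm, Int.modEq_iff_dvd]
  unfold Part
  simp only [Set.mem_ofPred_eq, e1, e2]
  rfl

end Pool.Agent.Results.MP_39d40e_nt.ChainOnLevels
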