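import Pool.Agent.Results.MP_39d40e_nt.AlmostAllDescent
import Pool.Agent.R482.ST.Poly

/-!
# Leigh's chain with `Λ_C < 1`: the trajectories of ALL integers near the powers and orbits of almost every number

Let `C` be a finite closed communicating class of Leigh's chain of a generalised Collatz map `T` with `Λ_C < 1`. The integers
of `S_C` whose trajectory never enters `(-Y, Y)` are few (starting file `AlmostAllDescent`). Let `f_n` be positive functions on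
`(a, ∞)` such that `f_n(t) / t` is nondecreasing: powers `t ^ (v_n)`, orbits `g (g (⋯ g (t)))` of maps `g`, multiples
`v_n t`. For almost every `α > a` and all large `n` the trajectories of ALL integers `x ∈ S_C` with `||x| - f_n(α)| ≤ L_n` enter
`(-y_n, y_n)`, if a certain series converges. For `f_n(α) = α ^ (v_n)` it is the series of
`L_n y_n ^ (-κ) v_n ^ (2 d + 5)`: so for almost every `α > 1` and every `A` all the trajectories which start within `n ^ A` of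
`α ^ n` or `- α ^ n` in `S_C` come down to `n ^ B`, `B = B(A)`.
-/

set_option autoImplicit false

namespace Pool.Agent.Results.MP_39d40e_nt.DescentNearPowers

open MeasureTheory Filter Topology
open Pool.Agent.H319R2.Leigh

/-- the functions `f n` are positive on `(a, ∞)`, `a ≥ 0`, and `f n x / x` is nondecreasing there -/
def Starshaped (a : ℝ) (f : ℕ → ℝ → ℝ) : Prop :=
  0 ≤ a ∧ ∀ n : ℕ, ∀ x y : ℝ, a < x → x ≤ y → 0 < f n x ∧ f n x / x ≤ f n y / y

/-- **Theorem.** Let `C` be a finite closed communicating class of Leigh's chain of a generalised Collatz map `T`, with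
`Λ_C < 1`. There is `κ > 0` such that for all `y_n ≥ 1` and `L_n ≥ 0`: (1) let `f_n` be starshaped functions on `(a, ∞)`, bounded
below by a positive constant at each point, with `L_n ≤ f_n(s)` for large `n`, for each `s > a`, such that the sums of
`L_n y_n ^ (-κ) (1 + |log f_n(t)|) ^ (2 d + 4) (1 + log (f_n(t) / f_n(s)))` converge for all `t ≥ s > a`; then for almost all `α > a`
and all large `n` the trajectory of EVERY `x ∈ S_C` with `||x| - f_n(α)| ≤ L_n` enters `(-y_n, y_n)`; (2) the same for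
`f_n(α) = α ^ (v_n)`, `v_n ≥ 1`, `α > 1`, if the sum of `L_n y_n ^ (-κ) v_n ^ (2 d + 5)` converges and `L_n ≤ s ^ (v_n)` for large `n`,
for each `s > 1`; (3) for every `A` there is `B` such that for almost all `α > 1` and all large `n` the trajectory of EVERY
`x ∈ S_C` with `||x| - α ^ n| ≤ n ^ A` enters `(-n ^ B, n ^ B)`. -/
theorem result (d : ℕ) (m r b : ℤ → ℤ) (e : ℤ → ℕ) (D : Data d m r b e) (C : Finset (ℤ × ℕ))
    (ρ : ℤ × ℕ → ℝ) (hC : Class d m r e C ρ) (hΛ : Lam d m C ρ < 1) :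
    (∃ κ : ℝ, 0 < κ ∧ ∀ y L : ℕ → ℝ, (∀ n, 1 ≤ y n) → (∀ n, 0 ≤ L n) →
      (∀ (a : ℝ) (f : ℕ → ℝ → ℝ), Starshaped a f → (∀ s : ℝ, a < s → ∃ b : ℝ, 0 < b ∧ ∀ n, b ≤ f n s) →
        (∀ s : ℝ, a < s → ∀ᶠ n in atTop, L n ≤ f n s) →
        (∀ s t : ℝ, a < s → s ≤ t → Summable fun n =>
          L n * (y n) ^ (-κ) * (1 + |Real.log (f n t)|) ^ (2 * d + 4) * (1 + Real.log (f n t / f n s))) →
        ∃ N : Set ℝ, volume N = 0 ∧ ∀ α : ℝ, a < α → α ∉ N → ∃ n₀ : ℕ, ∀ n : ℕ, n₀ ≤ n →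
          ∀ x ∈ S d C, |(|x| : ℝ) - f n α| ≤ L n → ∃ k : ℕ, |(((T d m r)^[k] x : ℤ) : ℝ)| < y n) ∧
      (∀ v : ℕ → ℝ, (∀ n, 1 ≤ v n) → (∀ s : ℝ, 1 < s → ∀ᶠ n in atTop, L n ≤ s ^ (v n)) →
        (Summable fun n => L n * (y n) ^ (-κ) * (v n) ^ (2 * d + 5)) →
        ∃ N : Set ℝ, volume N = 0 ∧ ∀ α : ℝ, 1 < α → α ∉ N → ∃ n₀ : ℕ, ∀ n : ℕ, n₀ ≤ n →
          ∀ x ∈ S d C, |(|x| : ℝ) - α ^ (v n)| ≤ L n → ∃ k : ℕ, |(((T d m r)^[k] x : ℤ) : ℝ)| < y n)) ∧
    (∀ A : ℕ, ∃ B : ℕ, ∃ N : Set ℝ, volume N = 0 ∧ ∀ α : ℝ, 1 < α → α ∉ N → ∃ n₀ : ℕ, ∀ n : ℕ, n₀ ≤ n →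
      ∀ x ∈ S d C, |(|x| : ℝ) - α ^ n| ≤ (n : ℝ) ^ A → ∃ k : ℕ, |(((T d m r)^[k] x : ℤ) : ℝ)| < (n : ℝ) ^ B) := by
  obtain ⟨A0, κ, hκ, hcount⟩ := AlmostAllDescent.result d m r b e D C ρ hC hΛ
  set A1 : ℝ := max |A0| 3 with hA1
  have hA10 : 0 ≤ A1 := le_trans (abs_nonneg _) (le_max_left _ _)
  have hfin : ∀ (P : ℤ → Prop) (X : ℝ), {k : ℤ | P k ∧ |(k : ℝ)| ≤ X}.Finite := by
    intro P X
    refine (Set.finite_Icc (-⌊X⌋) ⌊X⌋).subset ?_
    rintro k ⟨-, h1⟩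
    rw [abs_le] at h1
    rw [Set.mem_Icc]
    constructor
    · rw [neg_le]
      apply Int.le_floor.2
      push_cast
      linarith [h1.1]
    · exact Int.le_floor.2 h1.2
  have hS : ∀ Y : ℝ, 1 ≤ Y → ∀ X : ℝ, 1 ≤ X →
      {x : ℤ | x ∈ {x : ℤ | x ∈ S d C ∧ ∀ k : ℕ, Y ≤ |(((T d m r)^[k] x : ℤ) : ℝ)|} ∧ |(x : ℝ)| ≤ X}.Finite ∧
      ({x : ℤ | x ∈ {x : ℤ | x ∈ S d C ∧ ∀ k : ℕ, Y ≤ |(((T d m r)^[k] x : ℤ) : ℝ)|} ∧ |(x : ℝ)| ≤ X}.ncard : ℝ) ≤
        A1 * Y ^ (-κ) * (X * (1 + Real.log X) ^ (((2 * d + 4 : ℕ)) : ℝ)) := by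
    intro Y hY X hX
    refine ⟨hfin _ _, ?_⟩
    have hY0 : 0 < Y := by linarith
    have hlX := Real.log_nonneg hX
    have hX0 : 0 < X := by linarith
    rw [Real.rpow_natCast]
    rcases le_or_gt 2 X with h2 | h2
    · refine (hcount X Y h2 hY).trans ?_
      have e1 : A0 ≤ A1 := (le_abs_self _).trans (le_max_left _ _)
      have e2 : Real.log X ^ (2 * d + 4) ≤ (1 + Real.log X) ^ (2 * d + 4) :=
        pow_le_pow_left₀ hlX (by linarith) _
      have e3 : 0 ≤ X * Real.log X ^ (2 * d + 4) * Y ^ (-κ) := by positivity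
      calc A0 * X * Real.log X ^ (2 * d + 4) * Y ^ (-κ) = A0 * (X * Real.log X ^ (2 * d + 4) * Y ^ (-κ)) := by ring
        _ ≤ A1 * (X * Real.log X ^ (2 * d + 4) * Y ^ (-κ)) := mul_le_mul_of_nonneg_right e1 e3
        _ ≤ A1 * (X * (1 + Real.log X) ^ (2 * d + 4) * Y ^ (-κ)) := by
            apply mul_le_mul_of_nonneg_left _ hA10
            apply mul_le_mul_of_nonneg_right _ (by positivity)
            exact mul_le_mul_of_nonneg_left e2 hX0.le
        _ = _ := by ring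
    · rcases eq_or_lt_of_le hY with hY1 | hY1
      · have hsub : {x : ℤ | x ∈ {x : ℤ | x ∈ S d C ∧ ∀ k : ℕ, Y ≤ |(((T d m r)^[k] x : ℤ) : ℝ)|} ∧ |(x : ℝ)| ≤ X} ⊆
            ((Finset.Icc (-1 : ℤ) 1 : Finset ℤ) : Set ℤ) := by
          rintro x ⟨-, hx⟩
          have h3 : |(x : ℝ)| < 2 := lt_of_le_of_lt hx h2
          have h4 : |x| < 2 := by exact_mod_cast h3
          rw [Finset.mem_coe, Finset.mem_Icc]
          rw [abs_lt] at h4
          omega
        have h5 := Set.ncard_le_ncard hsub (Finset.finite_toSet _)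
        rw [Set.ncard_coe_finset] at h5
        have h6 : (Finset.Icc (-1 : ℤ) 1).card = 3 := by decide
        rw [h6] at h5
        have h7 : ({x : ℤ | x ∈ {x : ℤ | x ∈ S d C ∧ ∀ k : ℕ, Y ≤ |(((T d m r)^[k] x : ℤ) : ℝ)|} ∧
            |(x : ℝ)| ≤ X}.ncard : ℝ) ≤ 3 := by exact_mod_cast h5
        refine h7.trans ?_
        rw [← hY1, Real.one_rpow, mul_one]
        have e1 : (1 : ℝ) ≤ (1 + Real.log X) ^ (2 * d + 4) := one_le_pow₀ (by linarith)
        have e2 : 1 ≤ X * (1 + Real.log X) ^ (2 * d + 4) := by nlinarith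
        have e3 : 3 ≤ A1 := le_max_right _ _
        nlinarith
      · have hemp : {x : ℤ | x ∈ {x : ℤ | x ∈ S d C ∧ ∀ k : ℕ, Y ≤ |(((T d m r)^[k] x : ℤ) : ℝ)|} ∧ |(x : ℝ)| ≤ X} = ∅ := by
          rw [Set.eq_empty_iff_forall_notMem]
          rintro x ⟨⟨-, h3⟩, h4⟩
          have h5 : |(x : ℝ)| < 2 := lt_of_le_of_lt h4 h2
          have h6 : |x| < 2 := by exact_mod_cast h5
          have h7 := h3 0
          simp only [Function.iterate_zero, id_eq] at h7
          have h8 : |x| ≤ 1 := by omega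
          have h9 : |(x : ℝ)| ≤ 1 := by exact_mod_cast h8
          linarith
        rw [hemp, Set.ncard_empty, Nat.cast_zero]
        positivity
  have hpow : ∀ y L : ℕ → ℝ, (∀ n, 1 ≤ y n) → (∀ n, 0 ≤ L n) → ∀ v : ℕ → ℝ, (∀ n, 1 ≤ v n) →
      (∀ s : ℝ, 1 < s → ∀ᶠ n in atTop, L n ≤ s ^ (v n)) →
      (Summable fun n => L n * (y n) ^ (-κ) * (v n) ^ (2 * d + 5)) →
      ∃ N : Set ℝ, volume N = 0 ∧ ∀ α : ℝ, 1 < α → α ∉ N → ∃ n₀ : ℕ, ∀ n : ℕ, n₀ ≤ n →
        ∀ x ∈ S d C, |(|x| : ℝ) - α ^ (v n)| ≤ L n → ∃ k : ℕ, |(((T d m r)^[k] x : ℤ) : ℝ)| < y n := by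
    intro y L hy hL v hv hLv hsum
    obtain ⟨N, hN, hw⟩ := Pool.Agent.R482.ST.pow_poly
      (fun n => {x : ℤ | x ∈ S d C ∧ ∀ k : ℕ, y n ≤ |(((T d m r)^[k] x : ℤ) : ℝ)|}) (fun x : ℤ => |(x : ℝ)|) hv
      (q := ((2 * d + 4 : ℕ) : ℝ)) (Nat.cast_nonneg _) (C := fun n => A1 * (y n) ^ (-κ))
      (fun n => by
        have := hy n
        positivity) hL hLv (by
        refine (hsum.mul_left A1).congr fun n => ?_
        have : (((2 * d + 4 : ℕ) : ℝ) + 1) = ((2 * d + 5 : ℕ) : ℝ) := by push_cast; ring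
        rw [this, Real.rpow_natCast]
        ring) (fun n X hX => hS (y n) (hy n) X hX)
    refine ⟨N, hN, fun α hα hαN => ?_⟩
    obtain ⟨n₀, hn⟩ := hw α hα hαN
    refine ⟨n₀, fun n hn1 x hx hxw => ?_⟩
    by_contra hcon
    push Not at hcon
    exact absurd (hn n hn1 x ⟨hx, hcon⟩) (not_lt.2 hxw)
  refine ⟨⟨κ, hκ, fun y L hy hL => ⟨fun a f hf hinf hLf hsum => ?_, hpow y L hy hL⟩⟩, fun A => ?_⟩
  · obtain ⟨N, hN, hw⟩ := Pool.Agent.R482.ST.star_poly
      (fun n => {x : ℤ | x ∈ S d C ∧ ∀ k : ℕ, y n ≤ |(((T d m r)^[k] x : ℤ) : ℝ)|}) (fun x : ℤ => |(x : ℝ)|) hf hinf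
      (q := ((2 * d + 4 : ℕ) : ℝ)) (Nat.cast_nonneg _) (C := fun n => A1 * (y n) ^ (-κ))
      (fun n => by
        have := hy n
        positivity) hL hLf (fun s t hs hst => by
        refine ((hsum s t hs hst).mul_left A1).congr fun n => ?_
        rw [Real.rpow_natCast]
        ring) (fun n X hX => hS (y n) (hy n) X hX)
    refine ⟨N, hN, fun α hα hαN => ?_⟩
    obtain ⟨n₀, hn⟩ := hw α hα hαN
    refine ⟨n₀, fun n hn1 x hx hxw => ?_⟩
    by_contra hcon
    push Not at hcon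
    exact absurd (hn n hn1 x ⟨hx, hcon⟩) (not_lt.2 hxw)
  · -- y = max 1 (n ^ B), v = max 1 n, L = n ^ A
    obtain ⟨B, hB⟩ := exists_nat_ge ((A + 2 * d + 7 : ℝ) / κ)
    have hBκ : (A + 2 * d + 7 : ℝ) ≤ B * κ := by
      rw [div_le_iff₀ hκ] at hB
      exact hB
    have hv1 : ∀ n : ℕ, (1 : ℝ) ≤ max 1 (n : ℝ) := fun n => le_max_left _ _
    obtain ⟨N, hN, hw⟩ := hpow (fun n => (max 1 (n : ℝ)) ^ B) (fun n => (max 1 (n : ℝ)) ^ A)
      (fun n => one_le_pow₀ (hv1 n)) (fun n => by have := hv1 n; positivity) (fun n => max 1 (n : ℝ)) hv1 (by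
        intro s hs
        have hx0 : 0 < Real.log s := Real.log_pos hs
        have h2 := tendsto_exp_mul_div_rpow_atTop (A : ℝ) (Real.log s) hx0
        have h3 := ((h2.comp (tendsto_natCast_atTop_atTop (R := ℝ))).eventually (eventually_ge_atTop 1)).and
          (eventually_ge_atTop 1)
        filter_upwards [h3] with n hn
        obtain ⟨hn1, hn2⟩ := hn
        have hn2' : (1 : ℝ) ≤ n := by exact_mod_cast hn2
        have hn1 : 1 ≤ Real.exp (Real.log s * n) / (n : ℝ) ^ (A : ℝ) := hn1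
        rw [Real.rpow_natCast, le_div_iff₀ (by positivity), one_mul] at hn1
        rw [max_eq_right hn2', Real.rpow_def_of_pos (by linarith)]
        exact hn1) (by
        have hs2 : Summable fun n : ℕ => 1 / (max 1 (n : ℝ)) ^ 2 := by
          have h0 : Summable fun n : ℕ => 1 / (n : ℝ) ^ 2 := Real.summable_one_div_nat_pow.2 (by norm_num)
          rw [← summable_nat_add_iff 1] at h0 ⊢
          refine h0.congr fun n => ?_
          rw [max_eq_right]
          push_cast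
          have : (0 : ℝ) ≤ n := Nat.cast_nonneg n
          linarith
        refine Summable.of_nonneg_of_le (fun n => ?_) (fun n => ?_) hs2
        · have := hv1 n
          positivity
        · have h1 := hv1 n
          have h0 : 0 < max 1 (n : ℝ) := by linarith
          show (max 1 (n : ℝ)) ^ A * ((max 1 (n : ℝ)) ^ B) ^ (-κ) * (max 1 (n : ℝ)) ^ (2 * d + 5) ≤
            1 / (max 1 (n : ℝ)) ^ 2
          rw [one_div, ← Real.rpow_natCast, ← Real.rpow_natCast, ← Real.rpow_natCast, ← Real.rpow_natCast,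
            ← Real.rpow_mul h0.le, ← Real.rpow_neg h0.le, ← Real.rpow_add h0, ← Real.rpow_add h0]
          apply Real.rpow_le_rpow_of_exponent_le h1
          push_cast
          linarith)
    refine ⟨B, N, hN, fun α hα hαN => ?_⟩
    obtain ⟨n₀, hn⟩ := hw α hα hαN
    refine ⟨n₀ + 1, fun n hn1 x hx hxw => ?_⟩
    have hn1' : (1 : ℝ) ≤ n := by
      have : 1 ≤ n := by omega
      exact_mod_cast this
    have h5 := hn n (by omega) x hx
    rw [max_eq_right hn1', Real.rpow_natCast] at h5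
    exact h5 hxw

end Pool.Agent.Results.MP_39d40e_nt.DescentNearPowers
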