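import Pool.Agent.H319R2.LeighBridge
import Pool.Agent.R332.EX.Law
import Pool.Agent.Y927.GP.N

set_option autoImplicit false

/-!
# Leigh's Markov chain and exponential sequences

Let `C` be a finite closed communicating class of Leigh's chain of a generalised Collatz map `T` modulo
`d`, with the number `Λ = Λ_C`, let `a` be an integer coprime to `d`, `|a| ≥ 2`, and `f` a nonconstant
polynomial with integer coefficients. For ALL integers `b` coprime to `d` and ALL integers `c`, in every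
interval of length `Y`, for all but `K Y^(1 - δ)` of the `n` with `f n ≥ 0` and `b a^(f n) + c ∈ S_C` the
first `log_d Y` terms of the trajectory of `b a^(f n) + c` are `Λ^j |b a^(f n) + c|`, up to a factor `Y^ε`.
The constants `δ, K` do not depend on `b` and `c`.

Method. If `b a^s + c ≡ b a^t + c` modulo `d^(N + k)` then `d^N` divides `s - t` (`k` depends on `a` and
`d`). So the classes modulo `d^(N + k)` of the terms determine the values of `f` modulo `d^N`, which are
spread out, while only `d^(N (1 - c'))` classes contain elements of `S_C` with an unbalanced trajectory.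
-/

namespace Pool.Agent.Results.MP_39d40e_nt.ExponentialSequences

open Polynomial Pool.Agent.H319R2.Leigh Pool.Agent.Y927

/-- For `d ^ j ≤ Y` the term `T^j x` of the trajectory of `x` has absolute value `L ^ j |x|`, up to a
factor between `Y ^ (-ε)` and `Y ^ ε`. -/
def Follows (d : ℕ) (m r : ℤ → ℤ) (L ε Y : ℝ) (x : ℤ) : Prop :=
  ∀ j : ℕ, (d : ℝ) ^ j ≤ Y →
    Y ^ (-ε) * L ^ j * |(x : ℝ)| ≤ |(((T d m r)^[j] x : ℤ) : ℝ)| ∧
    |(((T d m r)^[j] x : ℤ) : ℝ)| ≤ Y ^ ε * L ^ j * |(x : ℝ)|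

/-- The exponential sequence `n ↦ b a ^ (f n) + c`, for the integers `n` with `f n ≥ 0`. -/
def expSeq (a b c : ℤ) (f : ℤ[X]) (n : ℤ) : ℤ := b * a ^ (f.eval n).toNat + c

section

variable {d : ℕ} {m r b : ℤ → ℤ} {e : ℤ → ℕ} {C : Finset (ℤ × ℕ)} {ρ : ℤ × ℕ → ℝ}

theorem lam_pos (D : Data d m r b e) : 0 < Lam d m C ρ := by
  unfold Lam
  apply Finset.prod_pos
  intro i hi
  rw [Finset.mem_range] at hi
  have h := (gm D).ne i (by positivity) (by exact_mod_cast hi)
  have h2 : ((m (i : ℤ) : ℤ) : ℝ) ≠ 0 := by exact_mod_cast h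
  have hd0 : (0 : ℝ) < d := by
    have : 0 < d := by have := D.two_le; omega
    exact_mod_cast this
  positivity

theorem mu_eq (D : Data d m r b e) (hC : Class d m r e C ρ) :
    GP.mu (gm D) C ρ = Real.log (Lam d m C ρ) := (log_Lam D hC).symm

theorem typ_iff (D : Data d m r b e) (hC : Class d m r e C ρ) (ε Y : ℝ) (x : ℤ) :
    GP.Typ (gm D) (GP.mu (gm D) C ρ) ε Y x ↔ Follows d m r (Lam d m C ρ) ε Y x := by
  unfold GP.Typ Follows
  rw [mu_eq D hC, gm_T]
  have h1 : ∀ j : ℕ, Real.exp (j * Real.log (Lam d m C ρ)) = Lam d m C ρ ^ j := by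
    intro j
    rw [Real.exp_nat_mul, Real.exp_log (lam_pos D)]
  simp only [h1]
  exact Iff.rfl

end

/-- **Main theorem.** Let `T` be a generalised Collatz map modulo `d`, `C` a finite closed communicating
class of its Leigh chain with stationary distribution `ρ`, `a` an integer coprime to `d` with `|a| ≥ 2`,
`f` a polynomial of degree at least `1` with integer coefficients, and `ε > 0`. There are `δ, K > 0` such
that for all integers `b` coprime to `d`, all integers `c` and every interval `(X, X + Y]`, `Y ≥ 1`, at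
most `K Y ^ (1 - δ)` of the integers `n` of the interval have `f n ≥ 0` and `b a ^ (f n) + c ∈ S_C`,
without the trajectory of `x = b a ^ (f n) + c` following the law `Λ^j |x|` for `log_d Y` steps. -/
theorem result (d : ℕ) (m r b' : ℤ → ℤ) (e : ℤ → ℕ) (D : Data d m r b' e) (C : Finset (ℤ × ℕ))
    (ρ : ℤ × ℕ → ℝ) (hC : Class d m r e C ρ) (a : ℤ) (ha : 2 ≤ |a|) (hac : IsCoprime a (d : ℤ))
    (f : ℤ[X]) (hf : 1 ≤ f.natDegree) (ε : ℝ) (hε : 0 < ε) :
    ∃ δ K : ℝ, 0 < δ ∧ 0 < K ∧ ∀ b c : ℤ, IsCoprime b (d : ℤ) → ∀ (X : ℤ) (Y : ℝ), 1 ≤ Y →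
      ({n : ℤ | X < n ∧ (n : ℝ) ≤ X + Y ∧ 0 ≤ f.eval n ∧ expSeq a b c f n ∈ S d C ∧
        ¬ Follows d m r (Lam d m C ρ) ε Y (expSeq a b c f n)}.ncard : ℝ) ≤ K * Y ^ (1 - δ) := by
  classical
  obtain ⟨δ, K, hδ, -, hK, h⟩ := Pool.Agent.R332.EX.law (gm_fac D) (gm_cls D hC) hf ha hac hε
  refine ⟨δ, K, hδ, hK, fun b c hb X Y hY => ?_⟩
  apply GP.ncard_int (P := fun n : ℤ => 0 ≤ f.eval n ∧ expSeq a b c f n ∈ S d C ∧
    ¬ Follows d m r (Lam d m C ρ) ε Y (expSeq a b c f n))
  intro A hA hbad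
  exact h b c hb X Y hY A hA (fun n hn => ⟨(hbad n hn).1, (hbad n hn).2.1, fun htyp =>
    (hbad n hn).2.2 ((typ_iff D hC ε Y _).1 htyp)⟩)

end Pool.Agent.Results.MP_39d40e_nt.ExponentialSequences
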